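import Mathlib

namespace Pool.Agent.Results.MP_ae912c_co.Yes

open FirstOrder CategoryTheory

universe u v w

/-- finite k-sunflower property of a class K of L-structures -/
def Sun {L : FirstOrder.Language.{u, v}} (K : Set (Bundled.{w} L.Structure)) (k : ℕ) : Prop :=
  ∀ B ∈ K, ∃ C ∈ K, ∀ (X : Type w) (f : C → Finset X), Function.Injective f →
    (∀ x, (f x).card = k) → ∃ (e : B ↪[L] C) (c : Set X),
      ∀ x y, x ≠ y → (f (e x) : Set X) ∩ (f (e y) : Set X) = c

section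
variable {L : FirstOrder.Language.{u, v}} (K : Set (Bundled.{w} L.Structure)) (k : ℕ)

abbrev Pr := ∀ A X : Type w, (A → Fin k → X) → Prop

variable {k}

def Arr (H P : Pr.{w} k) : Prop := ∀ B ∈ K, ∃ C ∈ K, ∀ (X : Type w) (s : C → Fin k → X),
  H _ _ s → ∃ e : B ↪[L] C, P _ _ (fun x => s (e x))

def Her (P : Pr.{w} k) : Prop := ∀ (A A' X : Type w) (s : A → Fin k → X) (e : A' → A),
  Function.Injective e → P _ _ s → P _ _ (fun x => s (e x))

variable {K}

theorem Arr.trans {H P Q : Pr.{w} k} (a : Arr K H P) (b : Arr K P Q) : Arr K H Q := by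
  intro B hB
  obtain ⟨C, hC, h⟩ := b B hB
  obtain ⟨D, hD, h'⟩ := a C hC
  refine ⟨D, hD, fun X s hs => ?_⟩
  obtain ⟨e, he⟩ := h' X s hs
  obtain ⟨e', he'⟩ := h X _ he
  exact ⟨e.comp e', he'⟩

theorem Arr.all {J : Type} [Finite J] {H : Pr.{w} k} {P : J → Pr.{w} k} (hH : Her H)
    (hP : ∀ j, Her (P j)) (a : ∀ j, Arr K H (P j)) :
    Arr K H (fun A X s => H A X s ∧ ∀ j, P j A X s) := by
  have : ∀ l : List J, Arr K H (fun A X s => H A X s ∧ ∀ j ∈ l, P j A X s) := by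
    intro l
    induction l with
    | nil => exact fun B hB => ⟨B, hB, fun X s hs => ⟨.refl L B, hs, by simp⟩⟩
    | cons j l i =>
      refine i.trans fun B hB => ?_
      obtain ⟨C, hC, h⟩ := a j B hB
      refine ⟨C, hC, fun X s hs => ?_⟩
      obtain ⟨e, he⟩ := h X s hs.1
      exact ⟨e, hH _ _ _ s e e.injective hs.1, List.forall_mem_cons.2
        ⟨he, fun j hj => hP j _ _ _ s e e.injective (hs.2 j hj)⟩⟩
  obtain ⟨l, hl⟩ := Finite.exists_univ_list J
  intro B hB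
  obtain ⟨C, hC, h⟩ := this l B hB
  exact ⟨C, hC, fun X s hs => (h X s hs).imp fun e he => ⟨he.1, fun j => he.2 j (hl.2 j)⟩⟩

def H0 : Pr.{w} k := fun _ _ s => ∀ x y i j, i ≠ j → s x j = s y i → s x i ≠ s y j

def Co (i : Fin k) : Pr.{w} k := fun _ _ s => ∀ x y, s x i = s y i

def P1 (i : Fin k) : Pr.{w} k := fun _ _ s => Co i _ _ s ∨ ∀ x y, s x i = s y i → x = y

def H1 : Pr.{w} k := fun _ _ s => H0 _ _ s ∧ ∀ i, P1 i _ _ s

def P2 (p : Fin k × Fin k) : Pr.{w} k := fun _ X s => p.1 = p.2 ∨ Co p.1 _ _ s ∨ Co p.2 _ _ s ∨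
  ∃ c : Set X, ∀ x y, x ≠ y → ({s x p.1, s x p.2} : Set X) ∩ {s y p.1, s y p.2} = c

theorem her0 : Her (H0 (k := k)) := fun _ _ _ _ _ _ h _ _ => h _ _

theorem her1 (i : Fin k) : Her (P1 i) := fun _ _ _ _ _ he h =>
  h.imp (fun h _ _ => h _ _) (fun h _ _ a => he (h _ _ a))

theorem her2 (p : Fin k × Fin k) : Her (P2 p) := fun _ _ _ _ _ he h =>
  h.imp_right (Or.imp (fun h _ _ => h _ _) (Or.imp (fun h _ _ => h _ _)
    fun ⟨c, h⟩ => ⟨c, fun _ _ a => h _ _ (he.ne a)⟩))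

theorem st1 (h : Sun K 2) (i : Fin k) : Arr K H0 (P1 i) := by
  classical
  intro B hB
  obtain ⟨C, hC, h⟩ := h B hB
  refine ⟨C, hC, fun X s _ => ?_⟩
  obtain ⟨e, c, he⟩ := h (X ⊕ C) (fun x => {.inl (s x i), .inr x}) (fun x y a => by
    have : Sum.inr x ∈ ({.inl (s y i), .inr y} : Finset (X ⊕ C)) := by
      beta_reduce at a; rw [← a]; simp
    simpa using this) (fun x => Finset.card_pair (by simp))
  refine ⟨e, or_iff_not_imp_right.2 fun a x y => ?_⟩
  push Not at a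
  obtain ⟨x0, y0, a, b⟩ := a
  by_cases d : x = y
  · rw [d]
  have : Sum.inl (s (e x0) i) ∈ c := by
    rw [← he x0 y0 b]
    simp [a]
  rw [← he x y d] at this
  simp at this
  exact this.1.symm.trans this.2

theorem st2 (h : Sun K 2) (p : Fin k × Fin k) : Arr K H1 (P2 p) := by
  classical
  intro B hB
  obtain ⟨C, hC, h⟩ := h B hB
  refine ⟨C, hC, fun X s hs => ?_⟩
  by_cases a : p.1 = p.2 ∨ Co p.1 _ _ s ∨ Co p.2 _ _ s
  · obtain ⟨e, -⟩ := h (C ⊕ C) (fun x => {.inl x, .inr x}) (fun x y a => by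
      have : Sum.inr x ∈ ({.inl y, .inr y} : Finset (C ⊕ C)) := by
        beta_reduce at a; rw [← a]; simp
      simpa using this) (fun x => Finset.card_pair (by simp))
    exact ⟨e, a.imp_right (Or.imp (fun h _ _ => h _ _) (fun h => .inl fun _ _ => h _ _))⟩
  push Not at a
  obtain ⟨e, c, he⟩ := h X (fun x => {s x p.1, s x p.2}) (fun x y b => by
    have b : ({s x p.1, s x p.2} : Set X) = {s y p.1, s y p.2} := by
      simpa using congrArg (fun t : Finset X => (t : Set X)) b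
    rcases Set.pair_eq_pair_iff.1 b with b | b
    · exact (hs.2 p.1).resolve_left a.2.1 _ _ b.1
    · exact absurd b.1 (hs.1 _ _ _ _ a.1 b.2))
    (fun x => Finset.card_pair fun b => hs.1 x x _ _ a.1 b.symm b)
  exact ⟨e, .inr (.inr (.inr ⟨c, fun x y b => by simpa using he x y b⟩))⟩

theorem fin {A X : Type w} (s : A → Fin k → X) (h1 : H1 _ _ s) (h2 : ∀ p, P2 p _ _ s) :
    ∃ c : Set X, ∀ x y, x ≠ y → Set.range (s x) ∩ Set.range (s y) = c := by
  by_cases a : ∀ x y : A, x ≠ y → ∃ z, z ≠ x ∧ z ≠ y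
  · refine ⟨{t | ∃ i x, Co i _ _ s ∧ s x i = t}, fun x y b => ?_⟩
    ext t
    constructor
    · rintro ⟨⟨i, rfl⟩, j, hj⟩
      by_contra d
      have n1 : ¬ Co i _ _ s := fun c => d ⟨i, x, c, rfl⟩
      have n2 : ¬ Co j _ _ s := fun c => d ⟨j, y, c, hj⟩
      have i1 := (h1.2 i).resolve_left n1
      have i2 := (h1.2 j).resolve_left n2
      rcases h2 (i, j) with e | e | e | ⟨c, e⟩
      · obtain rfl : i = j := e
        exact b (i1 _ _ hj.symm)
      · exact n1 e
      · exact n2 e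
      · obtain ⟨z, z1, z2⟩ := a x y b
        have : s x i ∈ c := by
          rw [← e x y b]
          exact ⟨.inl rfl, .inr hj.symm⟩
        rw [← e z x z1] at this
        rcases this.1 with t | t
        · exact z1 (i1 _ _ t.symm)
        · exact z2 (i2 _ _ (hj.trans t).symm)
    · rintro ⟨i, z, c, rfl⟩
      exact ⟨⟨i, c _ _⟩, i, c _ _⟩
  · push Not at a
    obtain ⟨x0, y0, -, a⟩ := a
    refine ⟨Set.range (s x0) ∩ Set.range (s y0), fun x y b => ?_⟩
    by_cases d : x = x0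
    · rw [d, a y (fun e => b (d.trans e.symm))]
    · have e := a x d
      have : y = x0 := by
        by_contra t
        exact b (e.trans (a y t).symm)
      rw [e, this, Set.inter_comm]

end

theorem result {L : FirstOrder.Language.{u, v}} (K : Set (Bundled.{w} L.Structure)) :
    Sun K 2 ↔ ∀ k, 0 < k → Sun K k := by
  refine ⟨fun h k _ B hB => ?_, fun h => h 2 two_pos⟩
  have a1 : Arr K (H0 (k := k)) H1 := Arr.all her0 her1 (st1 h)
  have a2 := a1.trans (Arr.all (fun _ _ _ s e he a => ⟨her0 _ _ _ s e he a.1,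
    fun i => her1 i _ _ _ s e he (a.2 i)⟩) her2 (st2 h))
  obtain ⟨C, hC, a⟩ := a2 B hB
  refine ⟨C, hC, fun X f _ hf => ?_⟩
  obtain ⟨_, -⟩ := exists_wellFoundedLT X
  obtain ⟨e, he⟩ := a X (fun x => (f x).orderEmbOfFin (hf x)) (fun x y i j n a b => by
    have mx := ((f x).orderEmbOfFin (hf x)).strictMono
    have my := ((f y).orderEmbOfFin (hf y)).strictMono
    rcases lt_or_gt_of_ne n with n | n
    · exact ((mx n).trans (a.trans_lt (my n))).ne b
    · exact (((my n).trans_eq a.symm).trans (mx n)).ne' b)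
  obtain ⟨c, hc⟩ := fin _ he.1 he.2
  exact ⟨e, c, fun x y n => by simpa using hc x y n⟩

end Pool.Agent.Results.MP_ae912c_co.Yes
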